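import Pool.Agent.H75R4.Gab.Stmts

set_option autoImplicit false

/-! # Task Avg of project H75-GABOR -/

namespace Pool.Agent.H75R4.Gab.TAvg492

open MeasureTheory Complex
open scoped ENNReal

theorem measurableSet_cube (c : V) : MeasurableSet (cube c) := by
  have : cube c = ⋂ i, ({x : V | c i ≤ x i} ∩ {x : V | x i < c i + 1}) := by
    ext x
    simp [cube]
  rw [this]
  refine MeasurableSet.iInter fun i => ?_
  have hc : Continuous fun x : V => x i := (EuclideanSpace.proj i).continuous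
  exact (measurableSet_le measurable_const hc.measurable).inter
    (measurableSet_lt hc.measurable measurable_const)

theorem mem_cube_iv (x : V) (n : Fin 5 → ℤ) : x ∈ cube (iv n) ↔ (fun i => ⌊x i⌋) = n := by
  constructor
  · intro h
    funext i
    exact Int.floor_eq_iff.2 (h i)
  · intro h i
    have := congrFun h i
    exact Int.floor_eq_iff.1 this

theorem norm_ex (r : ℝ) : ‖exp (-(2 * (Real.pi : ℂ) * I * (r : ℂ)))‖ = 1 := by
  have : -(2 * (Real.pi : ℂ) * I * (r : ℂ)) = ((-(2 * Real.pi * r) : ℝ) : ℂ) * I := by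
    push_cast; ring
  rw [this, Complex.norm_exp_ofReal_mul_I]

theorem F_eq (x₀ : V) (k : Fin 5 → ℤ) : F x₀ k = (cube x₀).indicator
    (fun x => exp (-(2 * (Real.pi : ℂ) * I * ((inner ℝ x (iv k) : ℝ) : ℂ)))) := by
  funext x
  unfold F
  by_cases h : x ∈ cube x₀
  · simp [h]
  · simp [h]

theorem memLp_F (hM : TaskMeas) (x₀ : V) (k : Fin 5 → ℤ) : MemLp (F x₀ k) 2 volume := by
  rw [F_eq, memLp_indicator_iff_restrict (measurableSet_cube x₀)]
  have : IsFiniteMeasure (volume.restrict (cube x₀)) := ⟨by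
    rw [Measure.restrict_apply_univ, hM.2.2]; exact ENNReal.one_lt_top⟩
  refine MemLp.of_bound (C := 1) ?_ ?_
  · apply Continuous.aestronglyMeasurable
    fun_prop
  · exact Filter.Eventually.of_forall fun x => (norm_ex _).le

theorem norm_F (hM : TaskMeas) (x₀ : V) (k : Fin 5 → ℤ) : ∫ x, ‖F x₀ k x‖ ^ 2 = 1 := by
  have h1 : (fun x => ‖F x₀ k x‖ ^ 2) = (cube x₀).indicator (1 : V → ℝ) := by
    funext x
    rw [F_eq]
    by_cases h : x ∈ cube x₀
    · simp only [Set.indicator_of_mem h, norm_ex]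
      simp
    · simp [h]
  rw [h1, integral_indicator_one (measurableSet_cube x₀), Measure.real, hM.2.2]
  simp

theorem translate (h : V → ℝ≥0∞) (f : V) :
    ∫⁻ x in cube f, h x = ∫⁻ z in cube 0, h (z + f) := by
  rw [← lintegral_indicator (measurableSet_cube f), ← lintegral_indicator (measurableSet_cube 0),
    ← lintegral_add_right_eq_self _ f]
  congr 1
  funext z
  have hiff : z + f ∈ cube f ↔ z ∈ cube 0 := by
    unfold cube
    simp only [Set.mem_ofPred_eq]
    apply forall_congr'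
    intro i
    simp only [PiLp.add_apply, PiLp.zero_apply]
    constructor
    · rintro ⟨h1, h2⟩; constructor <;> linarith
    · rintro ⟨h1, h2⟩; constructor <;> linarith
  by_cases hz : z ∈ cube 0
  · rw [Set.indicator_of_mem hz, Set.indicator_of_mem (hiff.2 hz)]
  · rw [Set.indicator_of_notMem hz, Set.indicator_of_notMem (fun h' => hz (hiff.1 h'))]

/-- the basic inequality for one cube -/
theorem main_ineq (S : Set (V × V))
    (hP : ∀ f : V → ℂ, MemLp f 2 volume →
      HasSum (fun s : S => ‖∫ x, f x * starRingEnd ℂ (G s x)‖ ^ 2) (7 * ∫ x, ‖f x‖ ^ 2))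
    (hB : ∀ (x₀ : V) (s : V × V) (K : Finset (Fin 5 → ℤ)),
      ∑ k ∈ K, ‖∫ x, F x₀ k x * starRingEnd ℂ (G s x)‖ ^ 2 ≤
        (volume (cube x₀ ∩ {x | x - s.1 ∈ E})).toReal)
    (hD : TaskDec) (hM : TaskMeas)
    (hMeet : ∀ x₀ n, {s | s ∈ S ∧ s.2 ∈ cube (iv n) ∧
      (cube x₀ ∩ {x | x - s.1 ∈ E}).Nonempty}.encard ≤ 224)
    (hV : ∀ n : Fin 5 → ℤ, ∀ x₀ : V, ∑' s : {s : V × V // s ∈ S ∧ s.2 ∈ cube (iv n)},
        volume (cube x₀ ∩ {x | x - s.1.1 ∈ E}) =
      ∫⁻ x in cube x₀, ((Mset S x n).encard : ℝ≥0∞))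
    (ε : ℝ) (K N : Finset (Fin 5 → ℤ))
    (hN : ∀ N' : Finset (Fin 5 → ℤ), Disjoint N' N →
      ∑ n ∈ N', ∑ k ∈ K, ∏ i, rho (k i - n i) ≤ ε * K.card) (x₀ : V) :
    ENNReal.ofReal (7 * K.card) ≤ (∑ n ∈ N, ∫⁻ x in cube x₀, ((Mset S x n).encard : ℝ≥0∞)) +
      224 * ENNReal.ofReal (ε * K.card) := by
  classical
  set d : V × V → ℝ := fun s => ∑ k ∈ K, ‖∫ x, F x₀ k x * starRingEnd ℂ (G s x)‖ ^ 2 with hd
  have hd0 : ∀ s, 0 ≤ d s := fun s => Finset.sum_nonneg fun k _ => by positivity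
  -- Parseval
  have h1 : HasSum (fun s : S => d s) (7 * K.card) := by
    have h2 : ∀ k ∈ K, HasSum (fun s : S => ‖∫ x, F x₀ k x * starRingEnd ℂ (G s x)‖ ^ 2) (7 : ℝ) := by
      intro k _
      have := hP (F x₀ k) (memLp_F hM x₀ k)
      rw [norm_F hM, mul_one] at this
      exact this
    have h3 := hasSum_sum h2
    rw [Finset.sum_const, nsmul_eq_mul, mul_comm] at h3
    exact h3
  have h2 : ENNReal.ofReal (7 * K.card) = ∑' s : S, ENNReal.ofReal (d s) := by
    rw [← h1.tsum_eq]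
    exact ENNReal.ofReal_tsum_of_nonneg (fun s => hd0 s) h1.summable
  -- windows
  let T : (Fin 5 → ℤ) → Type := fun n => {s : V × V // s ∈ S ∧ s.2 ∈ cube (iv n)}
  let φ : S → Σ n : Fin 5 → ℤ, T n := fun s =>
    ⟨fun i => ⌊s.1.2 i⌋, ⟨s.1, s.2, (mem_cube_iv _ _).2 rfl⟩⟩
  have hφ : Function.Injective φ := by
    intro s t h
    have h' := congrArg (fun p : Σ n : Fin 5 → ℤ, T n => p.2.1) h
    exact Subtype.ext h'
  have h3 : ∑' s : S, ENNReal.ofReal (d s) ≤ ∑' n : Fin 5 → ℤ, ∑' s : T n, ENNReal.ofReal (d s.1) := by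
    rw [← ENNReal.tsum_sigma' (fun p : Σ n : Fin 5 → ℤ, T n => ENNReal.ofReal (d p.2.1))]
    exact ENNReal.tsum_comp_le_tsum_of_injective hφ
      (fun p : Σ n : Fin 5 → ℤ, T n => ENNReal.ofReal (d p.2.1))
  -- windows inside
  have h4 : ∀ n, ∑' s : T n, ENNReal.ofReal (d s.1) ≤
      ∫⁻ x in cube x₀, ((Mset S x n).encard : ℝ≥0∞) := by
    intro n
    rw [← hV n x₀]
    exact ENNReal.tsum_le_tsum fun s => ENNReal.ofReal_le_of_le_toReal (hB x₀ s.1 K)
  -- windows outside
  have h5 : ∀ n, ∑' s : T n, ENNReal.ofReal (d s.1) ≤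
      224 * ENNReal.ofReal (∑ k ∈ K, ∏ i, rho (k i - n i)) := by
    intro n
    have hfin : {s | s ∈ S ∧ s.2 ∈ cube (iv n) ∧
      (cube x₀ ∩ {x | x - s.1 ∈ E}).Nonempty}.Finite :=
      Set.finite_of_encard_le_coe (k := 224) (hMeet x₀ n)
    set U : Finset (V × V) := hfin.toFinset with hU
    have hcard : U.card ≤ 224 := by
      have := hMeet x₀ n
      rw [hfin.encard_eq_coe_toFinset_card] at this
      exact_mod_cast this
    set R : ℝ≥0∞ := ENNReal.ofReal (∑ k ∈ K, ∏ i, rho (k i - n i)) with hR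
    calc ∑' s : T n, ENNReal.ofReal (d s.1)
        ≤ ∑' s : T n, (fun s : V × V => if s ∈ U then R else 0) s.1 := by
          apply ENNReal.tsum_le_tsum
          intro s
          simp only
          split_ifs with hs
          · apply ENNReal.ofReal_le_ofReal
            apply Finset.sum_le_sum
            intro k _
            exact hD x₀ s.1 k n s.2.2
          · have h6 : ¬ (cube x₀ ∩ {x | x - s.1.1 ∈ E}).Nonempty := by
              intro h7
              apply hs
              rw [hU, Set.Finite.mem_toFinset]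
              exact ⟨s.2.1, s.2.2, h7⟩
            have h7 := hB x₀ s.1 K
            rw [Set.not_nonempty_iff_eq_empty.1 h6] at h7
            simp only [measure_empty, ENNReal.toReal_zero] at h7
            rw [ENNReal.ofReal_of_nonpos h7]
      _ ≤ ∑' s : V × V, (if s ∈ U then R else 0) :=
          ENNReal.tsum_comp_le_tsum_of_injective Subtype.val_injective _
      _ = ∑ s ∈ U, (if s ∈ U then R else 0) := tsum_eq_sum fun s hs => if_neg hs
      _ = U.card * R := by
          rw [Finset.sum_congr rfl (fun s hs => if_pos hs), Finset.sum_const, nsmul_eq_mul]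
      _ ≤ 224 * R := by
          gcongr
          exact_mod_cast hcard
  -- the sum over all windows
  have h6 : ∑' n : Fin 5 → ℤ, ∑' s : T n, ENNReal.ofReal (d s.1) ≤
      ∑' n : Fin 5 → ℤ, ((if n ∈ N then ∫⁻ x in cube x₀, ((Mset S x n).encard : ℝ≥0∞) else 0) +
        224 * (if n ∈ N then 0 else ENNReal.ofReal (∑ k ∈ K, ∏ i, rho (k i - n i)))) := by
    apply ENNReal.tsum_le_tsum
    intro n
    by_cases hn : n ∈ N
    · simp only [if_pos hn, mul_zero, add_zero]
      exact h4 n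
    · simp only [if_neg hn, zero_add]
      exact h5 n
  have h7 : ∑' n : Fin 5 → ℤ, (if n ∈ N then (0 : ℝ≥0∞) else
      ENNReal.ofReal (∑ k ∈ K, ∏ i, rho (k i - n i))) ≤ ENNReal.ofReal (ε * K.card) := by
    rw [ENNReal.tsum_eq_iSup_sum]
    apply iSup_le
    intro M
    have h8 : ∑ n ∈ M, (if n ∈ N then (0 : ℝ≥0∞) else
        ENNReal.ofReal (∑ k ∈ K, ∏ i, rho (k i - n i))) =
        ∑ n ∈ M.filter (fun n => n ∉ N), ENNReal.ofReal (∑ k ∈ K, ∏ i, rho (k i - n i)) := by
      rw [Finset.sum_filter]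
      apply Finset.sum_congr rfl
      intro n _
      by_cases hn : n ∈ N
      · simp [hn]
      · simp [hn]
    rw [h8, ← ENNReal.ofReal_sum_of_nonneg]
    · apply ENNReal.ofReal_le_ofReal
      apply hN
      rw [Finset.disjoint_left]
      intro n hn
      exact (Finset.mem_filter.1 hn).2
    · intro n _
      apply Finset.sum_nonneg
      intro k _
      apply Finset.prod_nonneg
      intro i _
      unfold rho
      positivity
  have h9 : ENNReal.ofReal (7 * K.card) ≤
      (∑' n : Fin 5 → ℤ, (if n ∈ N then ∫⁻ x in cube x₀, ((Mset S x n).encard : ℝ≥0∞) else 0)) +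
        224 * ∑' n : Fin 5 → ℤ, (if n ∈ N then 0 else
          ENNReal.ofReal (∑ k ∈ K, ∏ i, rho (k i - n i))) := by
    rw [h2, ← ENNReal.tsum_mul_left, ← ENNReal.tsum_add]
    exact h3.trans h6
  refine h9.trans (add_le_add ?_ (mul_le_mul_right h7 _))
  rw [tsum_eq_sum (s := N) (fun n hn => if_neg hn)]
  exact (Finset.sum_congr rfl fun n hn => if_pos hn).le

end Pool.Agent.H75R4.Gab.TAvg492

namespace Pool.Agent.H75R4.Gab

open MeasureTheory Complex
open scoped ENNReal

theorem taskAvg : TaskAvg := by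
  classical
  intro S hS hP hB hD hM hNum hMeet hV hC
  intro P
  by_contra hcon
  push Not at hcon
  have h00 : (0 : V) ∈ cube 0 := by
    intro i
    simp
  have hP1 : 1 ≤ P.card := by
    obtain ⟨f, hf, -⟩ := hcon 0 0 h00
    exact Finset.card_pos.2 ⟨f, hf⟩
  have hpr : (1 : ℝ) ≤ P.card := by exact_mod_cast hP1
  set ε : ℝ := 1 / (231 * P.card) with hε
  have hε0 : 0 < ε := by positivity
  obtain ⟨K, N, hK, hNK, hN⟩ := hNum ε hε0
  have hK1 : (0 : ℝ) < K.card := by exact_mod_cast Finset.card_pos.2 hK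
  -- one window
  have hwin : ∀ n, ∑ f ∈ P, ∫⁻ x in cube f, ((Mset S x n).encard : ℝ≥0∞) ≤
      ((7 * P.card - 1 : ℕ) : ℝ≥0∞) := by
    intro n
    have e1 : ∑ f ∈ P, ∫⁻ x in cube f, ((Mset S x n).encard : ℝ≥0∞) =
        ∫⁻ z in cube 0, ∑ f ∈ P, ((Mset S (z + f) n).encard : ℝ≥0∞) := by
      rw [lintegral_finsetSum]
      · exact Finset.sum_congr rfl fun f _ =>
          TAvg492.translate (fun x => ((Mset S x n).encard : ℝ≥0∞)) f
      · intro f _
        exact (hV n).1.comp (measurable_add_const f)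
    rw [e1]
    calc ∫⁻ z in cube 0, ∑ f ∈ P, ((Mset S (z + f) n).encard : ℝ≥0∞)
        ≤ ∫⁻ _ in cube 0, ((7 * P.card - 1 : ℕ) : ℝ≥0∞) := by
          apply setLIntegral_mono' (TAvg492.measurableSet_cube 0)
          intro z hz
          have h1 : ∀ f, ∃ m : ℕ, (Mset S (z + f) n).encard = m ∧ m ≤ 7 := by
            intro f
            exact ENat.le_natCast_iff.1 (hC (z + f) n)
          choose m hm hm7 using h1
          obtain ⟨f0, hf0, hf07⟩ := hcon n z hz
          have hlt : ∑ f ∈ P, m f < ∑ _f ∈ P, 7 := by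
            apply Finset.sum_lt_sum (fun f _ => hm7 f)
            refine ⟨f0, hf0, lt_of_le_of_ne (hm7 f0) ?_⟩
            intro h7
            apply hf07
            rw [hm f0, h7]
            rfl
          rw [Finset.sum_const, smul_eq_mul] at hlt
          have h2 : ∑ f ∈ P, ((Mset S (z + f) n).encard : ℝ≥0∞) = ((∑ f ∈ P, m f : ℕ) : ℝ≥0∞) := by
            push_cast
            apply Finset.sum_congr rfl
            intro f _
            rw [hm f]
            simp
          rw [h2]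
          exact_mod_cast (by omega : ∑ f ∈ P, m f ≤ 7 * P.card - 1)
      _ = ((7 * P.card - 1 : ℕ) : ℝ≥0∞) := by
          rw [setLIntegral_const, hM.2.2, mul_one]
  have hmain : ∑ _f ∈ P, ENNReal.ofReal (7 * K.card) ≤
      ∑ f ∈ P, ((∑ n ∈ N, ∫⁻ x in cube f, ((Mset S x n).encard : ℝ≥0∞)) +
      224 * ENNReal.ofReal (ε * K.card)) := Finset.sum_le_sum fun f _ =>
    TAvg492.main_ineq S hP hB hD hM hMeet (fun n => (hV n).2) ε K N hN f
  rw [Finset.sum_add_distrib, Finset.sum_comm] at hmain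
  have hmain2 : (P.card : ℝ≥0∞) * ENNReal.ofReal (7 * K.card) ≤
      (N.card : ℝ≥0∞) * ((7 * P.card - 1 : ℕ) : ℝ≥0∞) +
      P.card * (224 * ENNReal.ofReal (ε * K.card)) := by
    calc (P.card : ℝ≥0∞) * ENNReal.ofReal (7 * K.card) = ∑ _f ∈ P, ENNReal.ofReal (7 * K.card) := by
          rw [Finset.sum_const, nsmul_eq_mul]
      _ ≤ _ := hmain
      _ ≤ (∑ _n ∈ N, ((7 * P.card - 1 : ℕ) : ℝ≥0∞)) +
          ∑ _f ∈ P, (224 * ENNReal.ofReal (ε * K.card)) := by
          gcongr with n hn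
          exact hwin n
      _ = _ := by
          rw [Finset.sum_const, Finset.sum_const, nsmul_eq_mul, nsmul_eq_mul]
  have hreal := ENNReal.toReal_mono (by
    apply ENNReal.add_ne_top.2
    constructor
    · exact ENNReal.mul_ne_top (ENNReal.natCast_ne_top _) (ENNReal.natCast_ne_top _)
    · exact ENNReal.mul_ne_top (ENNReal.natCast_ne_top _)
        (ENNReal.mul_ne_top (by norm_num) ENNReal.ofReal_ne_top)) hmain2
  rw [ENNReal.toReal_add (ENNReal.mul_ne_top (ENNReal.natCast_ne_top _) (ENNReal.natCast_ne_top _))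
    (ENNReal.mul_ne_top (ENNReal.natCast_ne_top _)
        (ENNReal.mul_ne_top (by norm_num) ENNReal.ofReal_ne_top))] at hreal
  simp only [ENNReal.toReal_mul, ENNReal.toReal_natCast] at hreal
  rw [ENNReal.toReal_ofReal (by positivity), ENNReal.toReal_ofReal (by positivity)] at hreal
  have h7 : ((7 * P.card - 1 : ℕ) : ℝ) = 7 * P.card - 1 := by
    rw [Nat.cast_sub (by omega)]
    push_cast
    ring
  rw [h7] at hreal
  have h224 : (224 : ℝ≥0∞).toReal = 224 := by norm_num
  rw [h224] at hreal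
  have hq : (0 : ℝ) ≤ 7 * P.card - 1 := by linarith
  have hfin : (P.card : ℝ) * (7 * K.card) ≤ (1 + ε) * K.card * (7 * P.card - 1) +
      P.card * (224 * (ε * K.card)) := by
    refine hreal.trans ?_
    gcongr
  have hεp : ε * (231 * P.card) = 1 := by
    rw [hε]; field_simp
  nlinarith [mul_pos hε0 hK1]

end Pool.Agent.H75R4.Gab
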